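import Pool.Agent.PAIR53.End
import Pool.Agent.HAS53.Comp

/-!
# One fibre `n + U` over an isotropic subgroup `U`: pairs suffice

`S` is a finite linked structure, `U` a subgroup with `q (u, u') = 0` for `u, u' ∈ U`, `n ∉ U` and
`D` a subgroup which contains the annihilators of the elements of `n + U`, and `U`.  If any two
elements of `D` lie in `ann m + U` for one `m ∈ n + U`, then `D ⊆ ann m + U` for one `m ∈ n + U`.
-/

set_option autoImplicit false
set_option linter.unusedSectionVars false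

namespace Pool.Agent.PAIR53

open Pool.Agent.ZPC2 Pool.Agent.LF53
open Pool.Agent.Helper58.PLine (QData)

variable {V Q : Type} [AddCommGroup V] [Module (ZMod 2) V] {S : QData V Q}

/-- addition of values of two elements -/
theorem addv {x y a b a' b' : V} (h : S.q x a = S.q y b) (h' : S.q x a' = S.q y b') :
    S.q x (a + a') = S.q y (b + b') := by
  obtain ⟨t, h1, h2⟩ := S.link _ _ _ _ h
  obtain ⟨t', h1', h2'⟩ := S.link _ _ _ _ h'
  have e1 : S.q x (a + a') = S.q x (t + t') := by
    rw [S.eq_iff, show a + a' + (t + t') = a + t + (a' + t') by abel]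
    exact (S.ann x).add_mem (S.eq_iff.1 h1) (S.eq_iff.1 h1')
  have e2 : S.q y (b + b') = S.q y (t + t') := by
    rw [S.eq_iff, show b + b' + (t + t') = b + t + (b' + t') by abel]
    exact (S.ann y).add_mem (S.eq_iff.1 h2) (S.eq_iff.1 h2')
  rw [e1, e2, S.eq_iff']
  have k1 : S.q x t = S.q y t := by rw [← h1, h, h2]
  have k2 : S.q x t' = S.q y t' := by rw [← h1', h', h2']
  exact (S.ann (x + y)).add_mem (S.eq_iff'.1 k1) (S.eq_iff'.1 k2)

theorem q_zero (x : V) : S.q x 0 = S.z := (S.ann x).zero_mem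

theorem zero_q (x : V) : S.q 0 x = S.z := (S.symm 0 x).trans (q_zero x)

theorem sc (c : ZMod 2) : c = 0 ∨ c = 1 := by revert c; decide

/-- if `(f + u) y = u v` then `f y = u (y + v)` -/
theorem shiftv {f u y v : V} (h : S.q (f + u) y = S.q u v) : S.q f y = S.q u (y + v) := by
  rw [S.symm (f + u), S.symm u] at h
  obtain ⟨t, h1, h2⟩ := S.link _ _ _ _ h
  have h3 : t ∈ S.ann (y + v) := by
    rw [← S.eq_iff', ← h1, h, h2]
  have e1 : S.q y f = S.q y (t + u) := by
    rw [S.eq_iff, show f + (t + u) = f + u + t by abel]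
    exact S.eq_iff.1 h1
  have e2 : S.q (y + v) u = S.q (y + v) (t + u) := by
    rw [S.eq_iff, show u + (t + u) = t + (u + u) by abel, ZModModule.add_self, add_zero]
    exact h3
  have e3 : S.q (y + v) (t + u) = S.q y (t + u) := by
    rw [S.eq_iff', show y + v + y = v + (y + y) by abel, ZModModule.add_self, add_zero,
      add_comm t u]
    exact S.eq_iff.1 h2
  rw [S.symm f, e1, ← e3, ← e2, S.symm]

/-- an isotropic subgroup `U`, an element `n`, and `D` -/
structure Fib (S : QData V Q) (U D : Submodule (ZMod 2) V) (n : V) : Prop where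
  iso : ∀ u ∈ U, ∀ v ∈ U, S.q u v = S.z
  hn : n ∉ U
  UD : U ≤ D
  ann : ∀ m, m + n ∈ U → S.ann m ≤ D

variable {U D : Submodule (ZMod 2) V} {n : V}

theorem Fib.nv (H : Fib S U D n) {m v : V} (hm : m + n ∈ U) (hv : v ∈ U) :
    S.q m v = S.q n v := by
  rw [S.eq_iff']
  exact H.iso _ hm _ hv

/-- the group generated by `U` and `n` -/
def MU (U : Submodule (ZMod 2) V) (n : V) : Submodule (ZMod 2) V where
  carrier := {m | m ∈ U ∨ m + n ∈ U}
  add_mem' := by
    rintro a b (ha | ha) (hb | hb)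
    · exact Or.inl (U.add_mem ha hb)
    · refine Or.inr ?_
      rw [add_assoc]
      exact U.add_mem ha hb
    · refine Or.inr ?_
      rw [show a + b + n = a + n + b by abel]
      exact U.add_mem ha hb
    · refine Or.inl ?_
      have := U.add_mem ha hb
      rwa [show a + n + (b + n) = a + b + (n + n) by abel, ZModModule.add_self, add_zero] at this
  zero_mem' := Or.inl U.zero_mem
  smul_mem' := by
    intro c a ha
    rcases sc c with rfl | rfl
    · rw [zero_smul]
      exact Or.inl U.zero_mem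
    · rwa [one_smul]

/-- `f x` is a value of `n` on `U` -/
def Zr (S : QData V Q) (U : Submodule (ZMod 2) V) (n f x : V) : Prop :=
  ∃ u ∈ U, S.q f x = S.q n u

theorem Zr.add {f x x' : V} (h : Zr S U n f x) (h' : Zr S U n f x') : Zr S U n f (x + x') := by
  obtain ⟨u, hu, e⟩ := h
  obtain ⟨u', hu', e'⟩ := h'
  exact ⟨u + u', U.add_mem hu hu', addv e e'⟩

theorem Zr.symm {f x : V} (h : Zr S U n f x) : Zr S U n x f := by
  obtain ⟨u, hu, e⟩ := h
  exact ⟨u, hu, (S.symm x f).trans e⟩

theorem Zr.zero (f : V) : Zr S U n f 0 := ⟨0, U.zero_mem, by rw [q_zero, q_zero]⟩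

/-- kernels and annihilators modulo the values of `n` on `U` -/
def RK (S : QData V Q) (U D : Submodule (ZMod 2) V) (n : V) : KW D (MU U n) where
  K f :=
    { carrier := {x | Zr S U n f x}
      add_mem' := fun h h' => h.add h'
      zero_mem' := Zr.zero _
      smul_mem' := by
        intro c x h
        rcases sc c with rfl | rfl
        · rw [zero_smul]
          exact Zr.zero _
        · rwa [one_smul] }
  W x :=
    { carrier := {f | Zr S U n f x}
      add_mem' := fun h h' => (h.symm.add h'.symm).symm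
      zero_mem' := (Zr.zero _).symm
      smul_mem' := by
        intro c f h
        rcases sc c with rfl | rfl
        · rw [zero_smul]
          exact (Zr.zero _).symm
        · rwa [one_smul] }
  mem x f := Iff.rfl

theorem mem_RK {f : MU U n} {x : D} : x ∈ (RK S U D n).K f ↔ Zr S U n f x := Iff.rfl

/-- the linked points -/
theorem linked (H : Fib S U D n) {f u : MU U n} (hu : (u : V) + n ∈ U) (x : D) :
    x ∈ (RK S U D n).K f ⊔ (RK S U D n).K (f + u) ↔ ∃ x' ∈ D, S.q (f : V) x = S.q u x' := by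
  constructor
  · intro h
    obtain ⟨x1, h1, x2, h2, rfl⟩ := Submodule.mem_sup.1 h
    obtain ⟨v1, hv1, e1⟩ := mem_RK.1 h1
    obtain ⟨v2, hv2, e2⟩ := mem_RK.1 h2
    rw [← H.nv hu hv1] at e1
    rw [← H.nv hu hv2] at e2
    have e3 : S.q (f : V) x2 = S.q u (x2 + v2) := shiftv e2
    refine ⟨v1 + (x2 + v2), D.add_mem (H.UD hv1) (D.add_mem x2.2 (H.UD hv2)), ?_⟩
    exact addv e1 e3
  · rintro ⟨x', hx', e⟩
    obtain ⟨t, h1, h2⟩ := S.link _ _ _ _ e
    have m1 : (x : V) + t ∈ S.ann f := S.eq_iff.1 h1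
    have m2 : x' + t ∈ S.ann u := S.eq_iff.1 h2
    have m3 : t ∈ D := by
      have := D.add_mem hx' (H.ann _ hu m2)
      rwa [← add_assoc, ZModModule.add_self, zero_add] at this
    have m4 : t ∈ S.ann ((f : V) + u) := by
      rw [← S.eq_iff', ← h1, e, h2]
    have e5 : x = ⟨(x : V) + t, D.add_mem x.2 m3⟩ + (⟨t, m3⟩ : D) := by
      apply Subtype.ext
      show (x : V) = x + t + t
      rw [add_assoc, ZModModule.add_self, add_zero]
    rw [e5]
    refine Submodule.add_mem_sup (mem_RK.2 ⟨0, U.zero_mem, ?_⟩) (mem_RK.2 ⟨0, U.zero_mem, ?_⟩)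
    · rw [q_zero]
      exact m1
    · rw [q_zero]
      exact m4

/-- **pairs suffice in a fibre over an isotropic subgroup** -/
theorem fibre [Finite V] (H : Fib S U D n)
    (hP : ∀ x ∈ D, ∀ x' ∈ D, ∃ m, m + n ∈ U ∧ (∃ v ∈ U, S.q m (x + v) = S.z) ∧
      ∃ v ∈ U, S.q m (x' + v) = S.z) :
    ∃ m, m + n ∈ U ∧ ∀ x ∈ D, ∃ v ∈ U, S.q m (x + v) = S.z := by
  obtain ⟨g, hg, hU⟩ := Submodule.exists_le_ker_of_notMem H.hn
  let L : Module.Dual (ZMod 2) (MU U n) := g.comp (MU U n).subtype
  have hL : ∀ m : MU U n, L m ≠ 0 → (m : V) + n ∈ U := by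
    intro m hm
    rcases m.2 with h | h
    · exact absurd (LinearMap.mem_ker.1 (hU h)) hm
    · exact h
  have hL' : ∀ m : MU U n, (m : V) + n ∈ U → L m ≠ 0 := by
    intro m hm h
    have h1 : g ((m : V) + n) = 0 := LinearMap.mem_ker.1 (hU hm)
    rw [map_add] at h1
    have h2 : g (m : V) = 0 := h
    rw [h2, zero_add] at h1
    exact hg h1
  have key : ∀ (m : MU U n) (x : D), (m : V) + n ∈ U →
      (x ∈ (RK S U D n).K m ↔ ∃ v ∈ U, S.q (m : V) (x + v) = S.z) := by
    intro m x hm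
    rw [mem_RK]
    constructor
    · rintro ⟨v, hv, e⟩
      rw [← H.nv hm hv] at e
      exact ⟨v, hv, S.eq_iff.1 e⟩
    · rintro ⟨v, hv, e⟩
      refine ⟨v, hv, ?_⟩
      rw [← H.nv hm hv]
      exact S.eq_iff.2 e
  obtain ⟨m, h1, h2⟩ := pairs_suffice (R := RK S U D n) (L := L) (by
      intro u hu x f f' h h'
      have hu' := hL u hu
      obtain ⟨x1, hx1, e1⟩ := (linked H hu' x).1 h
      obtain ⟨x2, hx2, e2⟩ := (linked H hu' x).1 h'
      refine (linked H hu' x).2 ⟨x1 + x2, D.add_mem hx1 hx2, ?_⟩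
      have e3 : S.q (x : V) f = S.q u x1 := (S.symm _ _).trans e1
      have e4 : S.q (x : V) f' = S.q u x2 := (S.symm _ _).trans e2
      have e5 := addv e3 e4
      exact (S.symm _ _).trans e5) (by
      intro x x'
      obtain ⟨m, hm, h3, h4⟩ := hP x x.2 x' x'.2
      refine ⟨⟨m, Or.inr hm⟩, hL' _ hm, (key _ _ hm).2 h3, (key _ _ hm).2 h4⟩)
  have hm := hL m h1
  exact ⟨m, hm, fun x hx => (key m ⟨x, hx⟩ hm).1 (h2 ⟨x, hx⟩)⟩

end Pool.Agent.PAIR53
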