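import Pool.Agent.HAS82.Main

/-!
# Pairs suffice

`K f` is the kernel of `f : M` on `X`, `N` the set of the `f` with `Λ f ≠ 0`.  If the pairs of maps
with one member in `N` are linked, and any two points of `X` are killed by one map in `N`, then one
map in `N` kills `X`.
-/

set_option autoImplicit false
set_option linter.unusedSectionVars false

namespace Pool.Agent.PAIR53

open Pool.Agent.HAS82 (ind ind_and natCard_eq card_mul sg sg_add sg_zero sg_one sg_le one_of_ne T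
  T_pos T_zero T_nonneg add_self')
open scoped Classical
open Finset

variable {X M : Type} [AddCommGroup X] [Module (ZMod 2) X] [AddCommGroup M] [Module (ZMod 2) M]

/-- kernels of maps and annihilators of points -/
structure KW (X M : Type) [AddCommGroup X] [Module (ZMod 2) X] [AddCommGroup M]
    [Module (ZMod 2) M] where
  K : M → Submodule (ZMod 2) X
  W : X → Submodule (ZMod 2) M
  mem : ∀ x f, x ∈ K f ↔ f ∈ W x

variable (R : KW X M)

theorem inf_K (f u : M) : R.K f ⊓ R.K (f + u) = R.K f ⊓ R.K u := by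
  ext v
  rw [Submodule.mem_inf, Submodule.mem_inf, R.mem, R.mem, R.mem]
  constructor
  · rintro ⟨h1, h2⟩
    refine ⟨h1, ?_⟩
    have := (R.W v).add_mem h1 h2
    rwa [← add_assoc, ZModModule.add_self, zero_add] at this
  · rintro ⟨h1, h2⟩
    exact ⟨h1, (R.W v).add_mem h1 h2⟩

/-- the size of the kernel -/
noncomputable def kap (f : M) : ℤ := (Nat.card (R.K f) : ℤ)

theorem kap_sum [Fintype X] (f : M) : kap R f = ∑ v : X, (ind (f ∈ R.W v) : ℤ) := by
  unfold kap
  rw [natCard_eq]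
  push_cast
  refine Finset.sum_congr rfl fun v _ => ?_
  rw [propext (R.mem v f)]

theorem kap_hat [Fintype X] [Fintype M] (a : Module.Dual (ZMod 2) M) :
    ∑ f : M, sg (a f) * kap R f = ∑ v : X, T a (R.W v) := by
  simp only [kap_sum, Finset.mul_sum]
  rw [Finset.sum_comm]
  rfl

theorem prod_eq [Fintype X] (f u : M) : kap R f * kap R (f + u) = ∑ v : X, ∑ w : X,
    (ind (w ∈ R.K u) : ℤ) * ((ind (v ∈ R.K f ⊔ R.K (f + u)) : ℤ) * (ind (f ∈ R.W w) : ℤ)) := by
  unfold kap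
  rw [← Nat.cast_mul, card_mul, inf_K, natCard_eq, natCard_eq, Finset.sum_mul]
  push_cast
  refine Finset.sum_congr rfl fun v _ => ?_
  rw [Finset.mul_sum]
  refine Finset.sum_congr rfl fun w _ => ?_
  rw [Submodule.mem_inf, ind_and, propext (R.mem w f)]
  push_cast
  ring

variable {R} {L : Module.Dual (ZMod 2) M}
  (hcm : ∀ u, L u ≠ 0 → ∀ (x : X) (f f' : M), x ∈ R.K f ⊔ R.K (f + u) →
    x ∈ R.K f' ⊔ R.K (f' + u) → x ∈ R.K (f + f') ⊔ R.K (f + f' + u))

/-- the maps linked with `u` at `x` -/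
def CM {u : M} (hu : L u ≠ 0) (x : X) : Submodule (ZMod 2) M where
  carrier := {f | x ∈ R.K f ⊔ R.K (f + u)}
  add_mem' := fun h h' => hcm u hu x _ _ h h'
  zero_mem' := by
    have h : x ∈ R.K 0 := (R.mem x 0).2 (R.W x).zero_mem
    exact Submodule.mem_sup_left h
  smul_mem' := by
    intro c f h
    have hc : c = 0 ∨ c = 1 := by
      revert c
      decide
    rcases hc with rfl | rfl
    · rw [zero_smul]
      have h : x ∈ R.K 0 := (R.mem x 0).2 (R.W x).zero_mem
      exact Submodule.mem_sup_left h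
    · rw [one_smul]
      exact h

include hcm in
theorem kap_pd [Fintype X] [Fintype M] {u : M} (hu : L u ≠ 0) (a : Module.Dual (ZMod 2) M) :
    0 ≤ ∑ f : M, sg (a f) * (kap R f * kap R (f + u)) := by
  have h2 : ∑ f : M, sg (a f) * (kap R f * kap R (f + u)) = ∑ v : X, ∑ w : X,
      (ind (w ∈ R.K u) : ℤ) * T a (CM hcm hu v ⊓ R.W w) := by
    simp only [prod_eq, Finset.mul_sum]
    rw [Finset.sum_comm]
    refine Finset.sum_congr rfl fun v _ => ?_
    rw [Finset.sum_comm]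
    refine Finset.sum_congr rfl fun w _ => ?_
    unfold T
    rw [Finset.mul_sum]
    refine Finset.sum_congr rfl fun ψ _ => ?_
    rw [← Nat.cast_mul, ← ind_and]
    have : (v ∈ R.K ψ ⊔ R.K (ψ + u) ∧ ψ ∈ R.W w) = (ψ ∈ CM hcm hu v ⊓ R.W w) := rfl
    rw [this]
    ring
  rw [h2]
  exact Finset.sum_nonneg fun v _ => Finset.sum_nonneg fun w _ =>
    mul_nonneg (Int.natCast_nonneg _) (T_nonneg _ _)

/-- Fourier transform of a convolution -/
theorem conv_hat [Fintype M] (κ : M → ℤ) (a b : Module.Dual (ZMod 2) M) :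
    ∑ χ : M, sg (a χ) * ∑ ψ : M, sg ((a + b) ψ) * (κ ψ * κ (ψ + χ)) =
      (∑ ψ : M, sg (a ψ) * κ ψ) * (∑ ψ : M, sg (b ψ) * κ ψ) := by
  simp only [Finset.mul_sum]
  rw [Finset.sum_comm]
  refine Finset.sum_congr rfl fun ψ _ => ?_
  rw [Finset.sum_mul]
  refine Fintype.sum_equiv (Equiv.addLeft ψ) _ _ fun χ => ?_
  show _ = sg (a (ψ + χ)) * κ (ψ + χ) * (sg (b ψ) * κ ψ)
  rw [LinearMap.add_apply, sg_add, map_add, sg_add]
  have h4 : sg (a ψ) * sg (a ψ) = 1 := by
    rw [← sg_add, add_self' (a ψ), sg_zero]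
  ring

theorem fac (a : ZMod 2) (h : a ≠ 0) : sg a = -1 := by rw [one_of_ne a h, sg_one]

/-- the inequality with the shifts in `N` only -/
theorem ineq [Fintype M] (κ : M → ℤ)
    (hpd : ∀ (u : M), L u ≠ 0 → ∀ (a : Module.Dual (ZMod 2) M),
      0 ≤ ∑ ψ : M, sg (a ψ) * (κ ψ * κ (ψ + u)))
    (a b : Module.Dual (ZMod 2) M) :
    (∑ ψ : M, sg (a ψ) * κ ψ) * (∑ ψ : M, sg (b ψ) * κ ψ) +
      (∑ ψ : M, sg (L ψ) * κ ψ) * (∑ ψ : M, sg ((a + b + L) ψ) * κ ψ) ≤
    (∑ ψ : M, sg ((0 : Module.Dual (ZMod 2) M) ψ) * κ ψ) * (∑ ψ : M, sg ((a + b) ψ) * κ ψ) +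
      (∑ ψ : M, sg ((a + L) ψ) * κ ψ) * ∑ ψ : M, sg ((b + L) ψ) * κ ψ := by
  have h1 : 0 ≤ ∑ u : M, (1 - sg (L u)) * ((1 - sg (a u)) *
      ∑ ψ : M, sg ((a + b) ψ) * (κ ψ * κ (ψ + u))) := by
    refine Finset.sum_nonneg fun u _ => ?_
    by_cases hu : L u = 0
    · rw [hu, sg_zero, sub_self, zero_mul]
    · exact mul_nonneg (sg_le _) (mul_nonneg (sg_le _) (hpd u hu _))
  have e1 := conv_hat κ 0 (a + b)
  have e2 := conv_hat κ a b
  have e3 := conv_hat κ L (a + b + L)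
  have e4 := conv_hat κ (a + L) (b + L)
  have hLL : L + L = 0 := by
    apply LinearMap.ext
    intro x
    rw [LinearMap.add_apply, add_self', LinearMap.zero_apply]
  rw [zero_add] at e1
  rw [show L + (a + b + L) = a + b + (L + L) by abel, hLL, add_zero] at e3
  rw [show a + L + (b + L) = a + b + (L + L) by abel, hLL, add_zero] at e4
  have h5 : ∑ u : M, (1 - sg (L u)) * ((1 - sg (a u)) *
      ∑ ψ : M, sg ((a + b) ψ) * (κ ψ * κ (ψ + u))) =
      (∑ χ : M, sg ((0 : Module.Dual (ZMod 2) M) χ) *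
        ∑ ψ : M, sg ((a + b) ψ) * (κ ψ * κ (ψ + χ))) -
      (∑ χ : M, sg (a χ) * ∑ ψ : M, sg ((a + b) ψ) * (κ ψ * κ (ψ + χ))) -
      (∑ χ : M, sg (L χ) * ∑ ψ : M, sg ((a + b) ψ) * (κ ψ * κ (ψ + χ))) +
      (∑ χ : M, sg ((a + L) χ) * ∑ ψ : M, sg ((a + b) ψ) * (κ ψ * κ (ψ + χ))) := by
    rw [← Finset.sum_sub_distrib, ← Finset.sum_sub_distrib, ← Finset.sum_add_distrib]
    refine Finset.sum_congr rfl fun χ _ => ?_
    rw [LinearMap.zero_apply, sg_zero, LinearMap.add_apply, sg_add]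
    ring
  rw [h5, e1, e2, e3, e4] at h1
  linarith

/-- `a` kills the annihilator of a point -/
def Po (R : KW X M) (a : Module.Dual (ZMod 2) M) : Prop := ∃ x : X, ∀ f ∈ R.W x, a f = 0

theorem hat_nonneg [Fintype X] [Fintype M] (a : Module.Dual (ZMod 2) M) :
    0 ≤ ∑ f : M, sg (a f) * kap R f := by
  rw [kap_hat]
  exact Finset.sum_nonneg fun v _ => T_nonneg _ _

theorem hat_pos [Fintype X] [Fintype M] {a : Module.Dual (ZMod 2) M} (h : Po R a) :
    0 < ∑ f : M, sg (a f) * kap R f := by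
  obtain ⟨v, hv⟩ := h
  rw [kap_hat]
  exact Finset.sum_pos' (fun w _ => T_nonneg _ _) ⟨v, Finset.mem_univ _, T_pos hv⟩

theorem hat_zero [Fintype X] [Fintype M] {a : Module.Dual (ZMod 2) M} (h : ¬ Po R a) :
    ∑ f : M, sg (a f) * kap R f = 0 := by
  rw [kap_hat]
  exact Finset.sum_eq_zero fun v _ => T_zero fun h' => h ⟨v, h'⟩

variable (hP : ∀ x x' : X, ∃ m, L m ≠ 0 ∧ x ∈ R.K m ∧ x' ∈ R.K m)

include hP in
theorem not_both {a : Module.Dual (ZMod 2) M} (h : Po R a) : ¬ Po R (a + L) := by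
  rintro ⟨x', h'⟩
  obtain ⟨x, hx⟩ := h
  obtain ⟨m, h1, h2, h3⟩ := hP x x'
  have h4 := h' m ((R.mem x' m).1 h3)
  rw [LinearMap.add_apply, hx m ((R.mem x m).1 h2), zero_add] at h4
  exact h1 h4

include hcm hP in
theorem Po_add [Finite X] [Finite M] {a b : Module.Dual (ZMod 2) M} (ha : Po R a) (hb : Po R b) :
    Po R (a + b) := by
  have := Fintype.ofFinite X
  have := Fintype.ofFinite M
  by_contra hcon
  have h0 : ¬ Po R L := by
    intro h
    have : Po R (0 : Module.Dual (ZMod 2) M) := ⟨0, fun f _ => rfl⟩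
    have h' := not_both hP this
    rw [zero_add] at h'
    exact h' h
  have h2 := ineq (L := L) (kap R) (fun u hu => kap_pd hcm hu) a b
  rw [hat_zero hcon, hat_zero h0, hat_zero (not_both hP ha), mul_zero, zero_mul, zero_mul,
    add_zero, add_zero] at h2
  have h3 := mul_pos (hat_pos ha) (hat_pos hb)
  linarith

include hcm hP in
/-- **pairs suffice** -/
theorem pairs_suffice [Finite X] [Finite M] : ∃ m, L m ≠ 0 ∧ ∀ x : X, x ∈ R.K m := by
  let S : Submodule (ZMod 2) (Module.Dual (ZMod 2) M) :=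
    { carrier := {a | Po R a}
      add_mem' := fun ha hb => Po_add hcm hP ha hb
      zero_mem' := ⟨0, fun f _ => rfl⟩
      smul_mem' := by
        rintro c a ⟨v, hv⟩
        exact ⟨v, fun f h => by rw [LinearMap.smul_apply, hv f h, smul_zero]⟩ }
  by_contra hcon
  push Not at hcon
  have h1 : L ∈ S := by
    rw [← Subspace.dualCoannihilator_dualAnnihilator_eq (W := S),
      Submodule.mem_dualAnnihilator]
    intro m hm
    by_contra hLm
    obtain ⟨v, hv⟩ := hcon m hLm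
    have h2 : m ∉ R.W v := fun h => hv ((R.mem v m).2 h)
    obtain ⟨g, h4, h5⟩ := Submodule.exists_le_ker_of_notMem h2
    refine h4 ((Submodule.mem_dualCoannihilator m).1 hm g ⟨v, fun f hf => ?_⟩)
    exact LinearMap.mem_ker.1 (h5 hf)
  have h6 : Po R (0 : Module.Dual (ZMod 2) M) := ⟨0, fun f _ => rfl⟩
  have h' := not_both hP h6
  rw [zero_add] at h'
  exact h' h1

end Pool.Agent.PAIR53
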