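import Pool.Agent.PAIR53.Fibre
import Pool.Agent.KAP87.MIZ
import Pool.Agent.AST.TOP

/-!
# Pairs of points suffice for law MI(Z)

Law P: if `Z` is a maximal isotropic subgroup and `s ∉ Z`, then any two elements `x, x'` which are
killed by elements of `s Z` lie in `V_m Z` for one `m ∈ s Z`.  It gives law MI(Z) (Helper 87's
file), so the elementary type conjecture for `-1 = 1`.
-/

set_option autoImplicit false
set_option linter.unusedSectionVars false

namespace Pool.Agent.PAIR53

open Pool.Agent.HAS82 (card_mul)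
open Pool.Agent.Helper58.PLine (QData)
open scoped Classical

section data

variable {V Q : Type} [AddCommGroup V] [Module (ZMod 2) V] {S : QData V Q}
  {U : Submodule (ZMod 2) V} {n : V}

/-- the pairs law in the fibre `n + U` -/
def PairsLaw (S : QData V Q) (U : Submodule (ZMod 2) V) (n : V) : Prop :=
  ∀ m m', m + n ∈ U → m' + n ∈ U → ∀ x x', S.q m x = S.z → S.q m' x' = S.z →
    ∃ p, p + n ∈ U ∧ (∃ v ∈ U, S.q p (x + v) = S.z) ∧ ∃ v ∈ U, S.q p (x' + v) = S.z

/-- the union of the `ann m + U`, `m ∈ n + U` -/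
def DU (hP : PairsLaw S U n) : Submodule (ZMod 2) V where
  carrier := {x | ∃ m, m + n ∈ U ∧ ∃ v ∈ U, S.q m (x + v) = S.z}
  add_mem' := by
    rintro a b ⟨m, hm, v, hv, e⟩ ⟨m', hm', v', hv', e'⟩
    obtain ⟨p, hp, ⟨w, hw, k⟩, w', hw', k'⟩ := hP m m' hm hm' _ _ e e'
    refine ⟨p, hp, v + w + (v' + w'), U.add_mem (U.add_mem hv hw) (U.add_mem hv' hw'), ?_⟩
    have h := (S.ann p).add_mem k k'
    have e1 : a + b + (v + w + (v' + w')) = a + v + w + (b + v' + w') := by abel
    rw [e1]
    exact h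
  zero_mem' := by
    refine ⟨n, ?_, 0, U.zero_mem, ?_⟩
    · rw [ZModModule.add_self]
      exact U.zero_mem
    · rw [add_zero]
      exact q_zero n
  smul_mem' := by
    rintro c x ⟨m, hm, v, hv, e⟩
    rcases sc c with rfl | rfl
    · refine ⟨n, ?_, 0, U.zero_mem, ?_⟩
      · rw [ZModModule.add_self]
        exact U.zero_mem
      · rw [zero_smul, add_zero]
        exact q_zero n
    · rw [one_smul]
      exact ⟨m, hm, v, hv, e⟩

/-- **pairs suffice**: if `n` is heaviest in `n + U`, then `ann m ⊆ ann n + U` for all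
`m ∈ n + U` -/
theorem full_of_pairs [Finite V] (iso : ∀ u ∈ U, ∀ v ∈ U, S.q u v = S.z) (hn : n ∉ U)
    (hP : PairsLaw S U n)
    (hmax : ∀ m, m + n ∈ U → Nat.card (S.ann m) ≤ Nat.card (S.ann n)) {m x : V}
    (hm : m + n ∈ U) (hx : S.q m x = S.z) : ∃ v ∈ U, S.q n (x + v) = S.z := by
  have H : Fib S U (DU hP) n := by
    refine ⟨iso, hn, ?_, ?_⟩
    · intro u hu
      refine ⟨n, ?_, u, hu, ?_⟩
      · rw [ZModModule.add_self]
        exact U.zero_mem
      · rw [ZModModule.add_self]
        exact q_zero n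
    · intro m hm v hv
      refine ⟨m, hm, 0, U.zero_mem, ?_⟩
      rw [add_zero]
      exact hv
  obtain ⟨p, hp, hD⟩ := fibre H (by
    rintro x ⟨m, hm, v, hv, e⟩ x' ⟨m', hm', v', hv', e'⟩
    obtain ⟨p, hp, ⟨w, hw, k⟩, w', hw', k'⟩ := hP m m' hm hm' _ _ e e'
    refine ⟨p, hp, ⟨v + w, U.add_mem hv hw, ?_⟩, v' + w', U.add_mem hv' hw', ?_⟩
    · rw [← add_assoc]
      exact k
    · rw [← add_assoc]
      exact k')
  have hinf : S.ann p ⊓ U = S.ann n ⊓ U := by
    ext v
    rw [Submodule.mem_inf, Submodule.mem_inf]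
    constructor
    · rintro ⟨h1, h2⟩
      refine ⟨?_, h2⟩
      have h3 : S.q n v = S.z := by
        rw [← H.nv hp h2]
        exact h1
      exact h3
    · rintro ⟨h1, h2⟩
      refine ⟨?_, h2⟩
      have h3 : S.q p v = S.z := by
        rw [H.nv hp h2]
        exact h1
      exact h3
  have hDp : DU hP ≤ S.ann p ⊔ U := by
    intro x hx
    obtain ⟨v, hv, e⟩ := hD x hx
    have e1 : x = x + v + v := by
      rw [add_assoc, ZModModule.add_self, add_zero]
    rw [e1]
    exact Submodule.add_mem_sup e hv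
  have hnD : S.ann n ⊔ U ≤ DU hP := by
    refine sup_le (H.ann n ?_) H.UD
    rw [ZModModule.add_self]
    exact U.zero_mem
  have hle : S.ann n ⊔ U ≤ S.ann p ⊔ U := hnD.trans hDp
  have hcard : Nat.card (S.ann p ⊔ U : Submodule (ZMod 2) V) ≤
      Nat.card (S.ann n ⊔ U : Submodule (ZMod 2) V) := by
    have h1 := card_mul (S.ann p) U
    have h2 := card_mul (S.ann n) U
    rw [hinf] at h1
    have h3 : Nat.card (S.ann p) * Nat.card U ≤ Nat.card (S.ann n) * Nat.card U :=
      Nat.mul_le_mul_right _ (hmax p hp)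
    rw [h1, h2] at h3
    exact Nat.le_of_mul_le_mul_right h3 Nat.card_pos
  have heq : S.ann n ⊔ U = S.ann p ⊔ U := by
    apply SetLike.coe_injective
    refine Set.eq_of_subset_of_ncard_le hle ?_ (Set.toFinite _)
    exact hcard
  have hxD : x ∈ S.ann n ⊔ U := by
    rw [heq]
    exact hDp (H.ann m hm hx)
  obtain ⟨y, hy, v, hv, e⟩ := Submodule.mem_sup.1 hxD
  refine ⟨v, hv, ?_⟩
  rw [← e, add_assoc, ZModModule.add_self, add_zero]
  exact hy

end data

open QS
open Pool.Agent.MXR66 (va)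
open Pool.Agent.KAP31
open Pool.Agent.KAP87
open Pool.Agent.AST

/-- **law P (pairs)**: `Z` maximal isotropic, `s ∉ Z`, `x ∈ V_(sz)`, `x' ∈ V_(sz')` with
`z, z' ∈ Z`: some `m ∈ s Z` has `x, x' ∈ V_m Z` -/
def LawPairs (S : QStruct) : Prop := ∀ Z : Subgroup S.G, MaxIso S Z → ∀ s, s ∉ Z →
  ∀ z ∈ Z, ∀ z' ∈ Z, ∀ x x', S.q (s * z) x = S.zero → S.q (s * z') x' = S.zero →
    ∃ y ∈ Z, (∃ v ∈ Z, S.q (s * y) (x * v) = S.zero) ∧ ∃ v ∈ Z, S.q (s * y) (x' * v) = S.zero

/-- **the pairs law gives law MI(Z)** -/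
theorem LawPairs.mi {S : QStruct} [Finite S.G] (hneg : S.neg = 1) (h : LawPairs S) :
    LawMI S := by
  intro Z hZ s hs hmax z hz x hx
  have hfin : Finite (Additive S.G) := (inferInstance : Finite S.G)
  let U : Submodule (ZMod 2) (Additive S.G) :=
    { carrier := {v | Additive.toMul v ∈ Z}
      add_mem' := fun {a b} ha hb => Z.mul_mem ha hb
      zero_mem' := Z.one_mem
      smul_mem' := fun r a ha => by
        rcases Pool.Agent.ZPC2.smul_cases r a with e | e
        · rw [e]
          exact Z.one_mem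
        · rw [e]
          exact ha }
  have hU : ∀ g : S.G, g * s ∈ Z → s * (g * s) = g := fun g _ => by
    rw [mul_comm g s, ← mul_assoc, S.exp_two, one_mul]
  obtain ⟨v, hv, e⟩ := full_of_pairs (S := toD S hneg) (U := U) (n := Additive.ofMul s)
    (fun u hu v hv => (hZ v).1 hv u hu) hs (by
      intro m m' hm hm' x x' e e'
      obtain ⟨y, hy, ⟨v, hv, k⟩, v', hv', k'⟩ := h Z hZ s hs (Additive.toMul m * s) hm
        (Additive.toMul m' * s) hm' (Additive.toMul x) (Additive.toMul x')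
        (by rw [hU _ hm]; exact e) (by rw [hU _ hm']; exact e')
      refine ⟨Additive.ofMul (s * y), ?_, ⟨Additive.ofMul v, hv, k⟩, Additive.ofMul v', hv', k'⟩
      show s * y * s ∈ Z
      rw [mul_comm s y, mul_assoc, S.exp_two, mul_one]
      exact hy) (by
      intro m hm
      have h1 := hmax (Additive.toMul m * s) hm
      rw [hU _ hm] at h1
      exact h1) (m := Additive.ofMul (s * z)) (x := Additive.ofMul x) (by
      show s * z * s ∈ Z
      rw [mul_comm s z, mul_assoc, S.exp_two, mul_one]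
      exact hz) hx
  exact ⟨Additive.toMul v, hv, e⟩

/-- **the pairs law gives the elementary type conjecture for `-1 = 1`** -/
theorem etc_of_pairs (h : ∀ S : QStruct, MinEx S → LawPairs S) :
    ∀ S : QStruct, Finite S.G → S.neg = 1 → ElemType S :=
  etc_of_MI fun S M => by
    have := M.fin
    exact (h S M).mi M.neg

end Pool.Agent.PAIR53
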